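import Mathlib

/-!
# Project D3 (helper268), job D3-ABS: abstract collapse
-/

set_option autoImplicit false

open Filter Topology

namespace Pool.Agent.Y419.D3

/-- a closed set of real numbers which is closed under midpoints is closed under intervals -/
theorem mid_interval {T : Set ℝ} (hT : IsClosed T) (hm : ∀ a ∈ T, ∀ b ∈ T, (a + b) / 2 ∈ T)
    {a b t : ℝ} (ha : a ∈ T) (hb : b ∈ T) (hat : a ≤ t) (htb : t ≤ b) : t ∈ T := by
  by_contra ht
  -- the last point before t and the first point after t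
  have h1 : IsCompact (T ∩ Set.Icc a t) := isCompact_Icc.inter_left hT
  have h2 : IsCompact (T ∩ Set.Icc t b) := isCompact_Icc.inter_left hT
  obtain ⟨a', ha', hamax⟩ := h1.exists_isGreatest ⟨a, ha, le_rfl, hat⟩
  obtain ⟨b', hb', hbmin⟩ := h2.exists_isLeast ⟨b, hb, htb, le_rfl⟩
  have hat' : a' < t := lt_of_le_of_ne ha'.2.2 (fun h => ht (h ▸ ha'.1))
  have htb' : t < b' := lt_of_le_of_ne hb'.2.1 (fun h => ht (h ▸ hb'.1))
  have hmid := hm a' ha'.1 b' hb'.1
  rcases le_total ((a' + b') / 2) t with h | h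
  · have h3 := hamax ⟨hmid, ⟨by linarith [ha'.2.1], h⟩⟩
    linarith
  · have h3 := hbmin ⟨hmid, ⟨h, by linarith [hb'.2.2]⟩⟩
    linarith

section

variable {E : Type} [AddCommGroup E] [Module ℝ E] [TopologicalSpace E] [IsTopologicalAddGroup E]
  [ContinuousSMul ℝ E]

/-- a closed set which is closed under midpoints is convex -/
theorem mid_convex {D : Set E} (hD : IsClosed D)
    (hm : ∀ x ∈ D, ∀ y ∈ D, (1 / 2 : ℝ) • x + (1 / 2 : ℝ) • y ∈ D) {x y : E} (hx : x ∈ D)
    (hy : y ∈ D) {a b : ℝ} (ha : 0 ≤ a) (hb : 0 ≤ b) (hab : a + b = 1) :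
    a • x + b • y ∈ D := by
  set g : ℝ → E := fun t => (1 - t) • x + t • y with hg
  have hgc : Continuous g := by
    rw [hg]
    fun_prop
  have h1 : b ∈ g ⁻¹' D := by
    refine mid_interval (hD.preimage hgc) ?_ (a := 0) (b := 1) (t := b) ?_ ?_ hb (by linarith)
    · intro s hs t ht
      have h2 := hm _ hs _ ht
      have h3 : g ((s + t) / 2) = (1 / 2 : ℝ) • g s + (1 / 2 : ℝ) • g t := by
        rw [hg]
        simp only
        module
      rw [Set.mem_preimage, h3]
      exact h2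
    · rw [Set.mem_preimage, hg]
      simpa using hx
    · rw [Set.mem_preimage, hg]
      simpa using hy
  have h2 : g b = a • x + b • y := by
    rw [hg]
    simp only
    rw [← hab, add_sub_cancel_right]
  rw [← h2]
  exact h1

end

theorem abs_core (E : Type) [AddCommGroup E] [Module ℝ E] [TopologicalSpace E]
    [IsTopologicalAddGroup E] [ContinuousSMul ℝ E] [LocallyConvexSpace ℝ E] [T2Space E] (C : Set E)
    (hC : IsCompact C) (hCconv : Convex ℝ C) (hCne : C.Nonempty)
    (M : Type) (ρ : M → E → E) (F : Filter M) [F.NeBot]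
    (hcont : ∀ m, Continuous (ρ m)) (hmap : ∀ m, ∀ x ∈ C, ρ m x ∈ C)
    (haff : ∀ m x y (s t : ℝ), s + t = 1 → ρ m (s • x + t • y) = s • ρ m x + t • ρ m y)
    (hinv : ∀ v : M, ∃ f : M → M, Tendsto f F F ∧ ∀ m x, ρ (f m) x = ρ v (ρ m x))
    (hmid : ∀ s ∈ F, ∃ s' ∈ F, s' ⊆ s ∧ ∀ m ∈ s', ∀ m' ∈ s', ∃ m'' ∈ s', ∀ x,
      ρ m'' x = (1 / 2 : ℝ) • ρ m x + (1 / 2 : ℝ) • ρ m' x) :
    ∃ (X : Set E) (x₀ : E) (U : Ultrafilter M), X ⊆ C ∧ IsClosed X ∧ Convex ℝ X ∧ x₀ ∈ X ∧
      (∀ m, ∀ x ∈ X, ρ m x ∈ X) ∧ (U : Filter M) ≤ F ∧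
      ∀ x ∈ X, Tendsto (fun m => ρ m x) (U : Filter M) (𝓝 x₀) := by
  classical
  -- a minimal invariant set
  set S : Set (Set E) := {X | X.Nonempty ∧ IsClosed X ∧ Convex ℝ X ∧ X ⊆ C ∧
    ∀ m, ∀ x ∈ X, ρ m x ∈ X} with hS
  obtain ⟨X, -, hXmin⟩ := zorn_superset_nonempty S (by
    intro c hcS hchain hcne
    refine ⟨⋂₀ c, ?_, fun s hs => Set.sInter_subset_of_mem hs⟩
    have hne : Nonempty c := hcne.to_subtype
    refine ⟨?_, ?_, ?_, ?_, ?_⟩
    · refine IsCompact.nonempty_sInter_of_directed_nonempty_isCompact_isClosed ?_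
        (fun U hU => (hcS hU).1) (fun U hU => hC.of_isClosed_subset (hcS hU).2.1 (hcS hU).2.2.2.1)
        (fun U hU => (hcS hU).2.1)
      intro U hU V hV
      rcases hchain.total hU hV with h | h
      · exact ⟨U, hU, subset_rfl, h⟩
      · exact ⟨V, hV, h, subset_rfl⟩
    · exact isClosed_sInter fun U hU => (hcS hU).2.1
    · exact convex_sInter fun U hU => (hcS hU).2.2.1
    · obtain ⟨U, hU⟩ := hcne
      exact (Set.sInter_subset_of_mem hU).trans (hcS hU).2.2.2.1
    · intro m x hx U hU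
      exact (hcS hU).2.2.2.2 m x (hx U hU)) C
    ⟨hCne, hC.isClosed, hCconv, subset_rfl, hmap⟩
  obtain ⟨hXne, hXcl, hXconv, hXC, hXinv⟩ := hXmin.prop
  have hXcomp : IsCompact X := hC.of_isClosed_subset hXcl hXC
  -- an extreme point
  obtain ⟨x₀, hx₀⟩ := hXcomp.extremePoints_nonempty hXne
  have hx₀' := mem_extremePoints.1 hx₀
  -- every point of X is a cluster point
  have hclus : ∀ z ∈ X, MapClusterPt x₀ F (fun m => ρ m z) := by
    intro z hz
    set X' : Set E := ⋂ s ∈ F, closure ((fun m => ρ m z) '' s) with hX'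
    have hmem : ∀ x, x ∈ X' ↔ ∀ s ∈ F, x ∈ closure ((fun m => ρ m z) '' s) := by
      intro x
      rw [hX', Set.mem_iInter₂]
    have hX'X : X' ⊆ X := by
      intro x hx
      have h1 := (hmem x).1 hx Set.univ univ_mem
      refine closure_minimal ?_ hXcl h1
      rintro _ ⟨m, -, rfl⟩
      exact hXinv m z hz
    have hX'S : X' ∈ S := by
      refine ⟨?_, ?_, ?_, hX'X.trans hXC, ?_⟩
      · obtain ⟨x, -, hx⟩ := hXcomp.exists_mapClusterPt (f := F) (u := fun m => ρ m z)
          (by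
            rw [le_principal_iff, mem_map]
            exact univ_mem' fun m => hXinv m z hz)
        refine ⟨x, (hmem x).2 fun s hs => ?_⟩
        exact clusterPt_iff_forall_mem_closure.1 hx _ (image_mem_map hs)
      · exact isClosed_biInter fun s _ => isClosed_closure
      · intro x hx y hy a b ha hb hab
        rw [hmem] at hx hy ⊢
        intro s hs
        obtain ⟨s', hs', hss, hmm⟩ := hmid s hs
        refine closure_mono (Set.image_mono hss) ?_
        refine mid_convex isClosed_closure ?_ (hx s' hs') (hy s' hs') ha hb hab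
        intro p hp q hq
        refine map_mem_closure₂ (f := fun p q : E => (1 / 2 : ℝ) • p + (1 / 2 : ℝ) • q)
          (by fun_prop) hp hq ?_
        rintro _ ⟨m, hm, rfl⟩ _ ⟨m', hm', rfl⟩
        obtain ⟨m'', hm'', h⟩ := hmm m hm m' hm'
        exact ⟨m'', hm'', h z⟩
      · intro v x hx
        rw [hmem] at hx ⊢
        intro s hs
        obtain ⟨f, hf, hfv⟩ := hinv v
        refine map_mem_closure (hcont v) (hx _ (hf hs)) ?_
        rintro _ ⟨m, hm, rfl⟩
        exact ⟨f m, hm, hfv m z⟩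
    have hXX' : X ⊆ X' := hXmin.le_of_le hX'S hX'X
    have h0 := (hmem x₀).1 (hXX' hx₀'.1)
    refine clusterPt_iff_forall_mem_closure.2 fun t ht => ?_
    have h1 := h0 _ (mem_map.1 ht)
    refine closure_mono ?_ h1
    exact Set.image_preimage_subset _ _
  -- finitely many points at once
  have hfin : ∀ Z : Finset X, ∃ zb ∈ X, ∀ U : Ultrafilter M,
      Tendsto (fun m => ρ m zb) (U : Filter M) (𝓝 x₀) →
      ∀ z ∈ Z, Tendsto (fun m => ρ m (z : E)) (U : Filter M) (𝓝 x₀) := by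
    intro Z
    induction Z using Finset.induction_on with
    | empty =>
      exact ⟨x₀, hx₀'.1, fun U _ z hz => absurd hz (Finset.notMem_empty z)⟩
    | insert z Z hz ih =>
      obtain ⟨zb, hzb, ih⟩ := ih
      refine ⟨(1 / 2 : ℝ) • (z : E) + (1 / 2 : ℝ) • zb,
        hXconv z.2 hzb (by norm_num) (by norm_num) (by norm_num), ?_⟩
      intro U hU
      have hlim : ∀ y ∈ X, ∃ y' ∈ X, Tendsto (fun m => ρ m y) (U : Filter M) (𝓝 y') := by
        intro y hy
        obtain ⟨y', hy', h⟩ := hXcomp.ultrafilter_le_nhds (U.map (fun m => ρ m y)) (by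
          rw [le_principal_iff]
          change (fun m => ρ m y) ⁻¹' X ∈ (U : Filter M)
          exact univ_mem' fun m => hXinv m y hy)
        exact ⟨y', hy', h⟩
      obtain ⟨y, hy, hyl⟩ := hlim z z.2
      obtain ⟨y', hy', hyl'⟩ := hlim zb hzb
      have h1 : Tendsto (fun m => ρ m ((1 / 2 : ℝ) • (z : E) + (1 / 2 : ℝ) • zb)) (U : Filter M)
          (𝓝 ((1 / 2 : ℝ) • y + (1 / 2 : ℝ) • y')) := by
        have h2 : (fun m => ρ m ((1 / 2 : ℝ) • (z : E) + (1 / 2 : ℝ) • zb)) =
            fun m => (1 / 2 : ℝ) • ρ m z + (1 / 2 : ℝ) • ρ m zb := by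
          funext m
          exact haff m _ _ _ _ (by norm_num)
        rw [h2]
        exact (hyl.const_smul _).add (hyl'.const_smul _)
      have h2 := tendsto_nhds_unique hU h1
      have h3 := hx₀'.2 y hy y' hy' ⟨1 / 2, 1 / 2, by norm_num, by norm_num, by norm_num, h2.symm⟩
      rw [h3.1] at hyl
      rw [h3.2] at hyl'
      intro w hw
      rcases Finset.mem_insert.1 hw with h | h
      · rw [h]
        exact hyl
      · exact ih U hyl' w h
  -- the filter
  set G : Filter M := ⨅ Z : Finset X, (F ⊓ ⨅ z ∈ Z, comap (fun m => ρ m (z : E)) (𝓝 x₀)) with hG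
  have hGne : G.NeBot := by
    rw [hG]
    refine iInf_neBot_of_directed' ?_ ?_
    · refine directed_of_isDirected_le ?_
      intro Z Z' hZ
      exact inf_le_inf_left _ (biInf_mono hZ)
    · intro Z
      obtain ⟨zb, hzb, h⟩ := hfin Z
      obtain ⟨U, hUF, hU⟩ := mapClusterPt_iff_ultrafilter.1 (hclus zb hzb)
      have h1 : (U : Filter M) ≤ F ⊓ ⨅ z ∈ Z, comap (fun m => ρ m (z : E)) (𝓝 x₀) := by
        refine le_inf hUF (le_iInf₂ fun z hz => ?_)
        rw [← tendsto_iff_comap]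
        exact h U hU z hz
      exact neBot_of_le h1
  refine ⟨X, x₀, Ultrafilter.of G, hXC, hXcl, hXconv, hx₀'.1, hXinv, ?_, ?_⟩
  · refine (Ultrafilter.of_le G).trans ((iInf_le _ ∅).trans inf_le_left)
  · intro x hx
    rw [tendsto_iff_comap]
    refine (Ultrafilter.of_le G).trans ((iInf_le _ {⟨x, hx⟩}).trans (inf_le_right.trans ?_))
    exact iInf₂_le_of_le ⟨x, hx⟩ (Finset.mem_singleton_self _) le_rfl

end Pool.Agent.Y419.D3
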