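import Pool.Agent.Y268.D3.Stm
import Pool.Agent.Y419.D3.AbsCore

/-!
# Project D3 (helper268), job D3-ABS
-/

set_option autoImplicit false

namespace Pool.Agent.Y419.D3

theorem prove_abs : Y268.D3.S_abs := by
  intro E _ _ _ _ _ _ _ C hC hCconv hCne M ρ F _ hcont hmap haff hinv hmid
  exact abs_core E C hC hCconv hCne M ρ F hcont hmap haff hinv hmid

end Pool.Agent.Y419.D3
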