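import Mathlib
import Pool.Agent.Y268.D3.Stm

/-!
# Project D3 (helper268), job D3-LST: words of sequences of letters
-/

set_option autoImplicit false

open scoped ComplexOrder
open Finset

namespace Pool.Agent.Y419.D3

open H759R2.Kad Y268.D3

section

variable {B : Type} [CStarAlgebra B] {n : ℕ}

theorem lst_zero (X : CStarMatrix (Fin n) (Fin n) B) (σ : Fin (0 + 1) → Fin n) :
    lst X σ = [((σ 0 : ℕ), 1)] := by
  unfold lst
  rw [List.ofFn_succ, List.ofFn_zero]
  simp

theorem lst_succ {k : ℕ} (X : CStarMatrix (Fin n) (Fin n) B) (σ : Fin (k + 1 + 1) → Fin n) :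
    lst X σ = ((σ 0 : ℕ), X (σ 0) (σ 1)) :: lst X (fun t : Fin (k + 1) => σ t.succ) := by
  unfold lst
  rw [List.ofFn_succ]
  have h0 : ((0 : Fin (k + 1 + 1)) : ℕ) + 1 < k + 1 + 1 := by simp
  refine congrArg₂ List.cons ?_ ?_
  · refine Prod.ext rfl ?_
    simp only
    rw [dif_pos h0]
    rfl
  · congr 1
    funext t
    refine Prod.ext rfl ?_
    by_cases h : (t : ℕ) + 1 < k + 1
    · have h' : ((t.succ : Fin (k + 1 + 1)) : ℕ) + 1 < k + 1 + 1 := by
        rw [Fin.val_succ]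
        omega
      simp only
      rw [dif_pos h, dif_pos h']
      rfl
    · have h' : ¬ ((t.succ : Fin (k + 1 + 1)) : ℕ) + 1 < k + 1 + 1 := by
        rw [Fin.val_succ]
        omega
      simp only
      rw [dif_neg h, dif_neg h']

theorem pwt_zero (τ : B →ₗ[ℂ] ℂ) (X : CStarMatrix (Fin n) (Fin n) B)
    (σ : Fin (0 + 1) → Fin n) : pwt τ X σ = 1 := by
  unfold pwt
  rw [List.ofFn_zero]
  rfl

theorem pwt_succ {k : ℕ} (τ : B →ₗ[ℂ] ℂ) (X : CStarMatrix (Fin n) (Fin n) B)
    (σ : Fin (k + 1 + 1) → Fin n) :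
    pwt τ X σ = pmat τ X (σ 0) (σ 1) * pwt τ X (fun t : Fin (k + 1) => σ t.succ) := by
  unfold pwt
  rw [List.ofFn_succ]
  rfl

theorem sword_zero (X : CStarMatrix (Fin n) (Fin n) B) (g : Fin n → unitary B)
    (σ : Fin (0 + 1) → Fin n) : sword X g σ = (g (σ 0) : B) := by
  unfold sword
  rw [List.ofFn_zero]
  exact mul_one _

theorem sword_succ {k : ℕ} (X : CStarMatrix (Fin n) (Fin n) B) (g : Fin n → unitary B)
    (σ : Fin (k + 1 + 1) → Fin n) :
    sword X g σ = (g (σ 0) : B) * X (σ 0) (σ 1) * sword X g (fun t : Fin (k + 1) => σ t.succ) := by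
  unfold sword
  rw [List.ofFn_succ]
  have h : rword X g (σ 0) (σ (Fin.succ 0) :: List.ofFn fun i : Fin k => σ i.succ.succ) =
      X (σ 0) (σ (Fin.succ 0)) * (g (σ (Fin.succ 0)) : B) *
        rword X g (σ (Fin.succ 0)) (List.ofFn fun i : Fin k => σ i.succ.succ) := rfl
  rw [h, mul_assoc, mul_assoc]
  rfl

theorem wd_lst (X : CStarMatrix (Fin n) (Fin n) B) (g : ℕ → unitary B) :
    ∀ (k : ℕ) (σ : Fin (k + 1) → Fin n), Wd g (lst X σ) = sword X (fun c : Fin n => g c) σ := by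
  intro k
  induction k with
  | zero =>
    intro σ
    rw [lst_zero, sword_zero]
    simp [Wd]
  | succ k ih =>
    intro σ
    rw [lst_succ, sword_succ, ← ih]
    rfl

end

section

variable {B : Type} [CStarAlgebra B] [PartialOrder B] [StarOrderedRing B] {n : ℕ}

theorem tau_real {τ : B →ₗ[ℂ] ℂ} (hτ : IsTracialState τ) (x : B) :
    τ (star x * x) = ((τ (star x * x)).re : ℂ) := by
  have h := Complex.nonneg_iff.1 (hτ.pos x)
  apply Complex.ext
  · rw [Complex.ofReal_re]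
  · rw [Complex.ofReal_im]
    exact h.2.symm

theorem rv_lst {τ : B →ₗ[ℂ] ℂ} (hτ : IsTracialState τ) (X : CStarMatrix (Fin n) (Fin n) B)
    (Φ : B → B → ℂ) :
    ∀ (k : ℕ) (a a' : B) (σ σ' : Fin (k + 1) → Fin n),
      Rv τ Φ a a' (lst X σ) (lst X σ') =
        if σ = σ' then τ (star a * a') * (pwt τ X σ : ℂ) * Φ 1 1 else 0 := by
  intro k
  induction k with
  | zero =>
    intro a a' σ σ'
    rw [lst_zero, lst_zero, pwt_zero]
    have h1 : Rv τ Φ a a' [((σ 0 : ℕ), (1 : B))] [((σ' 0 : ℕ), (1 : B))] =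
        if (σ 0 : ℕ) = (σ' 0 : ℕ) then τ (star a * a') * Φ 1 1 else 0 := by
      simp only [Rv]
    rw [h1]
    by_cases h : σ = σ'
    · rw [if_pos h, if_pos (by rw [h])]
      push_cast
      ring
    · rw [if_neg h, if_neg]
      intro h2
      apply h
      funext i
      have hi : i = 0 := Subsingleton.elim (α := Fin 1) i 0
      rw [hi]
      exact Fin.ext h2
  | succ k ih =>
    intro a a' σ σ'
    rw [lst_succ, lst_succ]
    have h1 : Rv τ Φ a a' (((σ 0 : ℕ), X (σ 0) (σ 1)) :: lst X (fun t : Fin (k + 1) => σ t.succ))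
        (((σ' 0 : ℕ), X (σ' 0) (σ' 1)) :: lst X (fun t : Fin (k + 1) => σ' t.succ)) =
        if (σ 0 : ℕ) = (σ' 0 : ℕ) then τ (star a * a') * Rv τ Φ (X (σ 0) (σ 1)) (X (σ' 0) (σ' 1))
          (lst X (fun t : Fin (k + 1) => σ t.succ)) (lst X (fun t : Fin (k + 1) => σ' t.succ))
        else 0 := by
      simp only [Rv]
    rw [h1, ih]
    by_cases h : σ = σ'
    · subst h
      rw [if_pos rfl, if_pos rfl, if_pos rfl, pwt_succ]
      have h2 : ((pmat τ X (σ 0) (σ 1) : ℝ) : ℂ) = τ (star (X (σ 0) (σ 1)) * X (σ 0) (σ 1)) :=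
        (tau_real hτ _).symm
      push_cast
      rw [h2]
      ring
    · rw [if_neg h]
      by_cases h0 : (σ 0 : ℕ) = (σ' 0 : ℕ)
      · rw [if_pos h0, if_neg, mul_zero]
        intro h2
        apply h
        funext i
        refine Fin.cases ?_ (fun j => ?_) i
        · exact Fin.ext h0
        · exact congrFun h2 j
      · rw [if_neg h0]

end

theorem prove_lst : S_lst := by
  intro B _ _ _ τ hτ n k X
  refine ⟨fun g σ => wd_lst X g k σ, ?_, fun Φ a a' σ σ' => rv_lst hτ X Φ k a a' σ σ'⟩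
  intro σ
  unfold lst
  rw [List.map_ofFn]
  rfl

end Pool.Agent.Y419.D3
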